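import Pool.Agent.helper63.TI.SpecA

/-! # Project ti: row FPW (powers of Frobenius) -/

set_option autoImplicit false

namespace Pool.Agent.TI

open Polynomial NumberField Pool.Agent.GJ Pool.Agent.TK Pool.Agent.TQ Pool.Agent.TFQ Pool.Agent.TD Pool.Agent.AQ
open Pool.Agent.FJ (VT Om chiO IsFrobO rf rs)
open scoped TensorProduct

noncomputable section

theorem FPW : FPW_stmt := by
  intro O F p s hF
  induction s with
  | zero =>
    intro x
    refine ⟨x, ?_, ?_⟩
    · rw [pow_zero]
      rfl
    · rw [pow_zero, pow_one]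
  | succ s ih =>
    intro x
    obtain ⟨y, hy, hy'⟩ := hF x
    obtain ⟨z, hz, hz'⟩ := ih y
    refine ⟨z, ?_, ?_⟩
    · rw [hz, hy, pow_succ]
      rfl
    · rw [hz', hy', ← pow_mul, pow_succ, mul_comm]

end

end Pool.Agent.TI
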